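import Pool.Agent.H14.AVR.Stmts3

/-!
# AVR: module DEL
-/

set_option autoImplicit false

namespace Pool.AVR

open Polynomial Matrix

section Del

variable {R : Type} [CommRing R] [Finite R] {ϖ : R}

theorem H86.card_span (h : Len2 R ϖ) : Nat.card (Ideal.span {ϖ}) = res ϖ := by
  let f : R →ₗ[R] R := LinearMap.mulLeft R ϖ
  have hk : LinearMap.ker f = Ideal.span {ϖ} := by
    ext x
    rw [LinearMap.mem_ker, Ideal.mem_span_singleton]
    constructor
    · intro hx
      exact h.ann x hx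
    · rintro ⟨y, rfl⟩
      change ϖ * (ϖ * y) = 0
      rw [← mul_assoc, h.sq, zero_mul]
  have hr : LinearMap.range f = Ideal.span {ϖ} := by
    ext x
    rw [LinearMap.mem_range, Ideal.mem_span_singleton]
    constructor
    · rintro ⟨y, rfl⟩
      exact ⟨y, rfl⟩
    · rintro ⟨y, rfl⟩
      exact ⟨y, rfl⟩
  have e := f.quotKerEquivRange
  rw [hk, hr] at e
  unfold res
  exact (Nat.card_congr e.toEquiv).symm

theorem H86.card_ring (h : Len2 R ϖ) : Nat.card R = res ϖ ^ 2 := by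
  have h1 := Submodule.card_eq_card_quotient_mul_card (Ideal.span {ϖ})
  rw [H86.card_span h] at h1
  rw [h1]
  unfold res
  ring

end Del

theorem del_thm : DELStmt := by
  intro R _ _ ϖ h h3
  classical
  have hk := H86.card_span h
  have hR := H86.card_ring h
  set k := res ϖ with hkdef
  have hkpos : 0 < k := by
    rw [← hk]
    exact Nat.card_pos
  set Z : Set (R × R × R) := {t | disc t.1 t.2.1 t.2.2 = 0} with hZ
  have hdisc : ∀ a b c : R, disc a b c = a ^ 2 * b ^ 2 - b ^ 3 - a ^ 3 * c := by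
    intro a b c
    unfold disc
    linear_combination (-(b ^ 3) - a ^ 3 * c + 6 * a * b * c - 9 * c ^ 2) * h3
  -- the two parts
  have hsub : Z ⊆ {t | IsUnit t.1 ∧ disc t.1 t.2.1 t.2.2 = 0} ∪
      {t | ϖ ∣ t.1 ∧ ϖ ∣ t.2.1} := by
    rintro ⟨a, b, c⟩ ht
    rcases h.unit a with ha | ha
    · left
      exact ⟨ha, ht⟩
    · right
      refine ⟨ha, ?_⟩
      rcases h.unit b with hb | hb
      · exfalso
        obtain ⟨a', rfl⟩ := ha
        have h0 : disc (ϖ * a') b c = 0 := ht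
        rw [hdisc] at h0
        have h1 : b ^ 3 = 0 := by
          linear_combination (-1 : R) * h0 + (a' ^ 2 * b ^ 2 - ϖ * a' ^ 3 * c) * h.sq
        have h2 : IsUnit (b ^ 3) := hb.pow 3
        rw [h1] at h2
        exact h.nonunit (by
          have h4 : (1 : R) = 0 := (isUnit_zero_iff.mp h2).symm
          have : ϖ = 1 := by
            calc ϖ = ϖ * 1 := (mul_one _).symm
              _ = 1 := by rw [h4, mul_zero]
          rw [this]
          exact isUnit_one)
      · exact hb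
  have h1 : ({t | IsUnit t.1 ∧ disc t.1 t.2.1 t.2.2 = 0} : Set (R × R × R)).ncard ≤ k ^ 4 := by
    have hinj : Set.InjOn (fun t : R × R × R => (t.1, t.2.1))
        {t | IsUnit t.1 ∧ disc t.1 t.2.1 t.2.2 = 0} := by
      rintro ⟨a, b, c⟩ ⟨ha, hd⟩ ⟨a', b', c'⟩ ⟨ha', hd'⟩ he
      simp only [Prod.mk.injEq] at he
      obtain ⟨rfl, rfl⟩ := he
      simp only at ha hd hd'
      rw [hdisc] at hd hd'
      have : a ^ 3 * c = a ^ 3 * c' := by linear_combination hd' - hd
      have hc : c = c' := (ha.pow 3).mul_left_cancel this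
      rw [hc]
    have h2 := Set.ncard_le_ncard_of_injOn (t := (Set.univ : Set (R × R)))
      (fun t : R × R × R => (t.1, t.2.1)) (fun _ _ => Set.mem_univ _) hinj (Set.toFinite _)
    rw [Set.ncard_univ, Nat.card_prod, hR] at h2
    calc _ ≤ _ := h2
      _ = k ^ 4 := by ring
  have h2 : ({t | ϖ ∣ t.1 ∧ ϖ ∣ t.2.1} : Set (R × R × R)).ncard ≤ k ^ 4 := by
    have he : ({t | ϖ ∣ t.1 ∧ ϖ ∣ t.2.1} : Set (R × R × R)) =
        (Ideal.span {ϖ} : Set R) ×ˢ ((Ideal.span {ϖ} : Set R) ×ˢ (Set.univ : Set R)) := by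
      ext ⟨a, b, c⟩
      simp [Ideal.mem_span_singleton]
    rw [he, Set.ncard_prod, Set.ncard_prod, Set.ncard_univ, hR]
    have h3 : (Ideal.span {ϖ} : Set R).ncard = k := hk
    rw [h3]
    apply le_of_eq
    ring
  have hZc : Z.ncard ≤ 2 * k ^ 4 := by
    calc Z.ncard ≤ _ := Set.ncard_le_ncard hsub (Set.toFinite _)
      _ ≤ _ := Set.ncard_union_le _ _
      _ ≤ k ^ 4 + k ^ 4 := add_le_add h1 h2
      _ = 2 * k ^ 4 := by ring
  have hcompl : ({t : R × R × R | disc t.1 t.2.1 t.2.2 ≠ 0}).ncard + Z.ncard = k ^ 6 := by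
    have h5 := Set.ncard_add_ncard_compl Z
    have h6 : Zᶜ = {t : R × R × R | disc t.1 t.2.1 t.2.2 ≠ 0} := rfl
    rw [h6, Nat.card_prod, Nat.card_prod, hR] at h5
    calc _ = _ := add_comm _ _
      _ = _ := h5
      _ = k ^ 6 := by ring
  unfold dens
  have hkR : (0 : ℝ) < (k : ℝ) := by exact_mod_cast hkpos
  rw [hR]
  push_cast
  have h7 : (({t : R × R × R | disc t.1 t.2.1 t.2.2 ≠ 0}).ncard : ℝ) + (Z.ncard : ℝ) =
      (k : ℝ) ^ 6 := by exact_mod_cast hcompl
  have h8 : (Z.ncard : ℝ) ≤ 2 * (k : ℝ) ^ 4 := by exact_mod_cast hZc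
  rw [le_div_iff₀ (by positivity)]
  have h9 : (1 - 2 / (k : ℝ) ^ 2) * ((k : ℝ) ^ 2) ^ 3 = (k : ℝ) ^ 6 - 2 * (k : ℝ) ^ 4 := by
    field_simp
  rw [h9]
  linarith

end Pool.AVR
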