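import Pool.Agent.H14.AVR.Stmts3

/-!
# AVR: module TAI
-/

set_option autoImplicit false

namespace Pool.AVR

open Polynomial Matrix

namespace H86

variable {F : Type} [Field F]

/-- polynomials of degree at most `N` -/
def PD (F : Type) [Field F] (N : ℕ) : Set F[X] := {p | p.natDegree ≤ N}

theorem PD_eq (N : ℕ) : PD F N = (degreeLT F (N + 1) : Set F[X]) := by
  ext p
  change p.natDegree ≤ N ↔ p ∈ degreeLT F (N + 1)
  rw [mem_degreeLT]
  by_cases hp : p = 0
  · subst hp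
    simp only [natDegree_zero, Nat.zero_le, degree_zero, true_iff]
    exact WithBot.bot_lt_coe _
  · rw [← natDegree_lt_iff_degree_lt hp]
    omega

theorem PD_finite [Finite F] (N : ℕ) : (PD F N).Finite := by
  rw [PD_eq]
  have e := (degreeLTEquiv F (N + 1)).toEquiv
  have : Finite (degreeLT F (N + 1)) := Finite.of_equiv _ e.symm
  exact Set.toFinite _

theorem PD_ncard [Finite F] (N : ℕ) : (PD F N).ncard = Nat.card F ^ (N + 1) := by
  rw [PD_eq]
  have e := (degreeLTEquiv F (N + 1)).toEquiv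
  have h1 : ((degreeLT F (N + 1) : Submodule F F[X]) : Set F[X]).ncard =
      Nat.card (degreeLT F (N + 1)) := rfl
  rw [h1, Nat.card_congr e, Nat.card_fun, Nat.card_fin]

theorem ncard_class [Finite F] (N : ℕ) (M r : F[X]) (hM : M ≠ 0) :
    ({p ∈ PD F N | M ∣ p - r} : Set F[X]).ncard ≤ Nat.card F ^ (N + 1 - M.natDegree) := by
  rcases Set.eq_empty_or_nonempty ({p ∈ PD F N | M ∣ p - r} : Set F[X]) with h | ⟨p0, hp0, hr0⟩
  · rw [h, Set.ncard_empty]
    exact Nat.zero_le _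
  by_cases hN : M.natDegree ≤ N
  · have hsub : ({p ∈ PD F N | M ∣ p - r} : Set F[X]) ⊆
        (fun g => p0 + M * g) '' PD F (N - M.natDegree) := by
      rintro p ⟨hp, hr⟩
      have h1 : M ∣ p - p0 := by
        have := dvd_sub hr hr0
        simpa using this
      obtain ⟨g, hg⟩ := h1
      refine ⟨g, ?_, by linear_combination (-1 : F[X]) * hg⟩
      change g.natDegree ≤ N - M.natDegree
      by_cases hg0 : g = 0
      · simp [hg0]
      · have h2 : (p - p0).natDegree ≤ N :=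
          (natDegree_sub_le _ _).trans (max_le hp hp0)
        rw [hg, natDegree_mul hM hg0] at h2
        omega
    calc _ ≤ _ := Set.ncard_le_ncard hsub ((PD_finite _).image _)
      _ ≤ _ := Set.ncard_image_le (PD_finite _)
      _ = _ := PD_ncard _
      _ = _ := by congr 1; omega
  · have hsub : ({p ∈ PD F N | M ∣ p - r} : Set F[X]) ⊆ {p0} := by
      rintro p ⟨hp, hr⟩
      have h1 : M ∣ p - p0 := by
        have := dvd_sub hr hr0
        simpa using this
      obtain ⟨g, hg⟩ := h1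
      have h2 : (p - p0).natDegree ≤ N :=
        (natDegree_sub_le _ _).trans (max_le hp hp0)
      by_cases hg0 : g = 0
      · rw [hg0, mul_zero] at hg
        exact sub_eq_zero.mp hg
      · rw [hg, natDegree_mul hM hg0] at h2
        omega
    calc _ ≤ ({p0} : Set F[X]).ncard := Set.ncard_le_ncard hsub (Set.finite_singleton _)
      _ = 1 := Set.ncard_singleton _
      _ ≤ _ := Nat.one_le_pow _ _ Nat.card_pos

theorem ncard_fibre {α γ : Type} (π : γ → α) (A : Set α) (hA : A.Finite) (Z : Set γ)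
    (hZ : Z.Finite) (B : ℕ) (hZA : ∀ z ∈ Z, π z ∈ A)
    (hf : ∀ a ∈ A, ({z ∈ Z | π z = a} : Set γ).ncard ≤ B) : Z.ncard ≤ A.ncard * B := by
  classical
  have hsub : Z ⊆ ⋃ a ∈ hA.toFinset, {z ∈ Z | π z = a} := by
    intro z hz
    simp only [Set.mem_iUnion]
    exact ⟨π z, hA.mem_toFinset.mpr (hZA z hz), hz, rfl⟩
  have hfin : (⋃ a ∈ hA.toFinset, {z ∈ Z | π z = a}).Finite := by
    refine hZ.subset ?_
    intro z hz
    simp only [Set.mem_iUnion] at hz
    obtain ⟨a, _, hz, _⟩ := hz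
    exact hz
  calc Z.ncard ≤ _ := Set.ncard_le_ncard hsub hfin
    _ ≤ _ := Finset.set_ncard_biUnion_le _ _
    _ ≤ hA.toFinset.card • B := Finset.sum_le_card_nsmul _ _ _
        (fun a ha => hf a (hA.mem_toFinset.mp ha))
    _ = A.ncard * B := by rw [smul_eq_mul, Set.ncard_eq_toFinset_card _ hA]

theorem irr_dvd [Finite F] (P : F[X]) (hP : Irreducible P) :
    P ∣ X ^ (Nat.card F ^ P.natDegree) - X := by
  have := Fact.mk hP
  have hfin : Module.Finite F (AdjoinRoot P) := (AdjoinRoot.powerBasis hP.ne_zero).finite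
  have : Finite (AdjoinRoot P) := Module.finite_of_finite F
  have := Fintype.ofFinite (AdjoinRoot P)
  have hc : Fintype.card (AdjoinRoot P) = Nat.card F ^ P.natDegree := by
    rw [← Nat.card_eq_fintype_card, Module.natCard_eq_pow_finrank (K := F),
      (AdjoinRoot.powerBasis hP.ne_zero).finrank, AdjoinRoot.powerBasis_dim]
  rw [← AdjoinRoot.mk_eq_zero, map_sub, map_pow, AdjoinRoot.mk_X, ← hc, FiniteField.pow_card,
    sub_self]

theorem irr_count [Finite F] (d : ℕ) (S : Finset F[X])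
    (hS : ∀ P ∈ S, P.Monic ∧ Irreducible P ∧ P.natDegree = d) :
    d * S.card ≤ Nat.card F ^ d := by
  rcases Nat.eq_zero_or_pos d with hd | hd
  · subst hd
    simp
  have hq : 1 < Nat.card F := Finite.one_lt_card
  have h0 : (X ^ (Nat.card F ^ d) - X : F[X]) ≠ 0 :=
    FiniteField.X_pow_card_pow_sub_X_ne_zero F hd.ne' hq
  have h1 : ∏ P ∈ S, P ∣ (X ^ (Nat.card F ^ d) - X : F[X]) := by
    have := Finset.prod_dvd_of_coprime (t := S) (s := fun P : F[X] => P)
      (z := (X ^ (Nat.card F ^ d) - X : F[X])) ?_ ?_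
    · exact this
    · intro P hP Q hQ hne
      change IsCoprime P Q
      obtain ⟨hPm, hPi, _⟩ := hS P hP
      obtain ⟨hQm, hQi, _⟩ := hS Q hQ
      rw [hPi.coprime_iff_not_dvd]
      intro hdvd
      exact hne (eq_of_monic_of_associated hPm hQm (hPi.associated_of_dvd hQi hdvd))
    · intro P hP
      obtain ⟨_, hPi, hPd⟩ := hS P hP
      have := irr_dvd P hPi
      rw [hPd] at this
      exact this
  have h2 := natDegree_le_of_dvd h1 h0
  rw [FiniteField.X_pow_card_pow_sub_X_natDegree_eq F hd.ne' hq] at h2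
  have h3 : (∏ P ∈ S, P).natDegree = ∑ P ∈ S, P.natDegree :=
    natDegree_prod_of_monic S (fun P => P) (fun P hP => (hS P hP).1)
  have h4 : ∑ P ∈ S, P.natDegree = S.card * d := by
    rw [Finset.sum_congr rfl (fun P hP => (hS P hP).2.2), Finset.sum_const, smul_eq_mul]
  rw [h3, h4, mul_comm] at h2
  exact h2

/-- monic irreducible polynomials of degree `d` -/
noncomputable def Ird (F : Type) [Field F] [Finite F] (d : ℕ) : Finset F[X] :=
  (Set.Finite.subset (s := PD F d) (PD_finite d)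
    (t := {P ∈ PD F d | P.Monic ∧ Irreducible P ∧ P.natDegree = d}) (fun _ h => h.1)).toFinset

theorem mem_Ird [Finite F] (d : ℕ) (P : F[X]) :
    P ∈ Ird F d ↔ P.Monic ∧ Irreducible P ∧ P.natDegree = d := by
  unfold Ird
  rw [Set.Finite.mem_toFinset]
  constructor
  · intro h
    exact h.2
  · intro h
    exact ⟨h.2.2.le, h⟩

theorem Fam_eq (n : ℕ) : Fam F n = PD F (2 * n) ×ˢ (PD F (4 * n) ×ˢ PD F (6 * n)) := by
  ext ⟨a, b, c⟩
  rfl

theorem Fam_finite [Finite F] (n : ℕ) : (Fam F n).Finite := by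
  rw [Fam_eq]
  exact (PD_finite _).prod ((PD_finite _).prod (PD_finite _))

theorem disc3 (h3 : (3 : F) = 0) (a b c : F[X]) :
    disc a b c = a ^ 2 * b ^ 2 - b ^ 3 - a ^ 3 * c := by
  have h : (3 : F[X]) = 0 := by
    have h4 : (C (3 : F) : F[X]) = C 0 := congrArg C h3
    rw [C_0] at h4
    rw [← h4]
    exact (map_ofNat C 3).symm
  unfold disc
  linear_combination (-(b ^ 3) - a ^ 3 * c + 6 * a * b * c - 9 * c ^ 2) * h

theorem natDegree_disc (h3 : (3 : F) = 0) (n : ℕ) (f : F[X] × F[X] × F[X]) (hf : f ∈ Fam F n) :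
    (disc f.1 f.2.1 f.2.2).natDegree ≤ 12 * n := by
  obtain ⟨h1, h2, h4⟩ := hf
  rw [disc3 h3]
  have ha : ∀ k, (f.1 ^ k).natDegree ≤ k * (2 * n) := fun k =>
    natDegree_pow_le.trans (Nat.mul_le_mul_left _ h1)
  have hb : ∀ k, (f.2.1 ^ k).natDegree ≤ k * (4 * n) := fun k =>
    natDegree_pow_le.trans (Nat.mul_le_mul_left _ h2)
  have e1 : (f.1 ^ 2 * f.2.1 ^ 2).natDegree ≤ 12 * n := by
    refine natDegree_mul_le.trans ?_
    have := ha 2
    have := hb 2
    omega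
  have e2 : (f.2.1 ^ 3).natDegree ≤ 12 * n := by
    have := hb 3
    omega
  have e3 : (f.1 ^ 3 * f.2.2).natDegree ≤ 12 * n := by
    refine natDegree_mul_le.trans ?_
    have := ha 3
    omega
  exact (natDegree_sub_le _ _).trans (max_le ((natDegree_sub_le _ _).trans (max_le e1 e2)) e3)

/-- part (a): `a = 0` -/
theorem part_a [Finite F] (n : ℕ) :
    ({f ∈ Fam F n | f.1 = 0} : Set (F[X] × F[X] × F[X])).ncard ≤ Nat.card F ^ (10 * n + 2) := by
  have hsub : ({f ∈ Fam F n | f.1 = 0} : Set (F[X] × F[X] × F[X])) ⊆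
      {0} ×ˢ (PD F (4 * n) ×ˢ PD F (6 * n)) := by
    rintro ⟨a, b, c⟩ ⟨⟨_, hb, hc⟩, ha⟩
    exact ⟨ha, hb, hc⟩
  calc _ ≤ _ := Set.ncard_le_ncard hsub
        ((Set.finite_singleton _).prod ((PD_finite _).prod (PD_finite _)))
    _ = _ := by
      rw [Set.ncard_prod, Set.ncard_prod, Set.ncard_singleton, PD_ncard, PD_ncard, one_mul,
        ← pow_add]
      congr 1
      omega

/-- part (b): discriminant zero -/
theorem part_b [Finite F] (h3 : (3 : F) = 0) (n : ℕ) :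
    ({f ∈ Fam F n | f.1 ≠ 0 ∧ disc f.1 f.2.1 f.2.2 = 0} : Set (F[X] × F[X] × F[X])).ncard ≤
      Nat.card F ^ (6 * n + 2) := by
  have hinj : Set.InjOn (fun f : F[X] × F[X] × F[X] => (f.1, f.2.1))
      {f ∈ Fam F n | f.1 ≠ 0 ∧ disc f.1 f.2.1 f.2.2 = 0} := by
    rintro ⟨a, b, c⟩ ⟨_, ha, hd⟩ ⟨a', b', c'⟩ ⟨_, ha', hd'⟩ he
    simp only [Prod.mk.injEq] at he
    obtain ⟨rfl, rfl⟩ := he
    simp only at ha hd hd'
    rw [disc3 h3] at hd hd'
    have h5 : a ^ 3 * c = a ^ 3 * c' := by linear_combination hd' - hd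
    have hc : c = c' := mul_left_cancel₀ (pow_ne_zero 3 ha) h5
    rw [hc]
  have h1 := Set.ncard_le_ncard_of_injOn (t := PD F (2 * n) ×ˢ PD F (4 * n))
      (fun f : F[X] × F[X] × F[X] => (f.1, f.2.1))
      (fun f hf => ⟨hf.1.1, hf.1.2.1⟩) hinj ((PD_finite _).prod (PD_finite _))
  rw [Set.ncard_prod, PD_ncard, PD_ncard, ← pow_add] at h1
  calc _ ≤ _ := h1
    _ = _ := by congr 1; omega

/-- part (c): `P` divides `a` and `b` -/
theorem part_c [Finite F] (n : ℕ) (P : F[X]) (hP : P ≠ 0) :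
    ({f ∈ Fam F n | P ∣ f.1 ∧ P ∣ f.2.1} : Set (F[X] × F[X] × F[X])).ncard ≤
      Nat.card F ^ (2 * n + 1 - P.natDegree) * (Nat.card F ^ (4 * n + 1 - P.natDegree) *
        Nat.card F ^ (6 * n + 1)) := by
  have hsub : ({f ∈ Fam F n | P ∣ f.1 ∧ P ∣ f.2.1} : Set (F[X] × F[X] × F[X])) ⊆
      {p ∈ PD F (2 * n) | P ∣ p - 0} ×ˢ ({p ∈ PD F (4 * n) | P ∣ p - 0} ×ˢ PD F (6 * n)) := by
    rintro ⟨a, b, c⟩ ⟨⟨ha, hb, hc⟩, hPa, hPb⟩
    refine ⟨⟨ha, ?_⟩, ⟨hb, ?_⟩, hc⟩
    · simpa using hPa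
    · simpa using hPb
  calc _ ≤ _ := Set.ncard_le_ncard hsub (((PD_finite _).subset (fun _ h => h.1)).prod
        (((PD_finite _).subset (fun _ h => h.1)).prod (PD_finite _)))
    _ ≤ _ := by
      rw [Set.ncard_prod, Set.ncard_prod, PD_ncard]
      exact Nat.mul_le_mul (ncard_class _ _ _ hP) (Nat.mul_le_mul (ncard_class _ _ _ hP) le_rfl)

/-- part (d): `P` does not divide `a` -/
theorem part_d [Finite F] (h3 : (3 : F) = 0) (n : ℕ) (P : F[X]) (hP : Irreducible P) :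
    ({f ∈ Fam F n | ¬ P ∣ f.1 ∧ P ^ 2 ∣ disc f.1 f.2.1 f.2.2} :
      Set (F[X] × F[X] × F[X])).ncard ≤
      Nat.card F ^ (6 * n + 2) * Nat.card F ^ (6 * n + 1 - 2 * P.natDegree) := by
  have h1 := ncard_fibre (fun f : F[X] × F[X] × F[X] => (f.1, f.2.1))
    (PD F (2 * n) ×ˢ PD F (4 * n)) ((PD_finite _).prod (PD_finite _))
    {f ∈ Fam F n | ¬ P ∣ f.1 ∧ P ^ 2 ∣ disc f.1 f.2.1 f.2.2}
    ((Fam_finite n).subset (fun _ h => h.1)) (Nat.card F ^ (6 * n + 1 - 2 * P.natDegree))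
    (fun f hf => ⟨hf.1.1, hf.1.2.1⟩) ?_
  · rw [Set.ncard_prod, PD_ncard, PD_ncard, ← pow_add] at h1
    calc _ ≤ _ := h1
      _ = _ := by congr 2; omega
  rintro ⟨a, b⟩ _
  rcases Set.eq_empty_or_nonempty ({z ∈ {f ∈ Fam F n | ¬ P ∣ f.1 ∧
    P ^ 2 ∣ disc f.1 f.2.1 f.2.2} | (z.1, z.2.1) = (a, b)}) with h | ⟨z0, hz0, he0⟩
  · rw [h, Set.ncard_empty]
    exact Nat.zero_le _
  have h2 := Set.ncard_le_ncard_of_injOn (s := {z ∈ {f ∈ Fam F n | ¬ P ∣ f.1 ∧
      P ^ 2 ∣ disc f.1 f.2.1 f.2.2} | (z.1, z.2.1) = (a, b)})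
      (t := {p ∈ PD F (6 * n) | P ^ 2 ∣ p - z0.2.2})
      (fun f : F[X] × F[X] × F[X] => f.2.2) ?_ ?_ ((PD_finite _).subset (fun _ h => h.1))
  · calc _ ≤ _ := h2
      _ ≤ _ := ncard_class _ _ _ (pow_ne_zero 2 hP.ne_zero)
      _ = _ := by rw [natDegree_pow]
  · rintro ⟨a', b', c'⟩ ⟨⟨hf, hPa, hPd⟩, he⟩
    obtain ⟨a0, b0, c0⟩ := z0
    simp only [Prod.mk.injEq] at he he0
    obtain ⟨rfl, rfl⟩ := he
    obtain ⟨rfl, rfl⟩ := he0
    refine ⟨hf.2.2, ?_⟩
    obtain ⟨_, _, hd0⟩ := hz0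
    simp only at hd0 hPd hPa
    rw [disc3 h3] at hd0 hPd
    have h4 : P ^ 2 ∣ a0 ^ 3 * (c' - c0) := by
      have := dvd_sub hd0 hPd
      have h5 : a0 ^ 2 * b0 ^ 2 - b0 ^ 3 - a0 ^ 3 * c0 - (a0 ^ 2 * b0 ^ 2 - b0 ^ 3 - a0 ^ 3 * c') =
        a0 ^ 3 * (c' - c0) := by ring
      rwa [h5] at this
    have h6 : IsCoprime (P ^ 2) (a0 ^ 3) := ((hP.coprime_iff_not_dvd).mpr hPa).pow
    exact h6.dvd_of_dvd_mul_left h4
  · rintro ⟨a', b', c'⟩ ⟨_, he⟩ ⟨a'', b'', c''⟩ ⟨_, he'⟩ hcc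
    simp only [Prod.mk.injEq] at he he' hcc ⊢
    exact ⟨he.1.trans he'.1.symm, he.2.trans he'.2.symm, hcc⟩

theorem cover [Finite F] (h3 : (3 : F) = 0) (n D : ℕ) :
    ({f ∈ Fam F n | ∃ P : F[X], P.Monic ∧ Irreducible P ∧ D < P.natDegree ∧
      P ^ 2 ∣ disc f.1 f.2.1 f.2.2} : Set (F[X] × F[X] × F[X])) ⊆
    {f ∈ Fam F n | f.1 = 0} ∪ ({f ∈ Fam F n | f.1 ≠ 0 ∧ disc f.1 f.2.1 f.2.2 = 0} ∪
      ((⋃ d ∈ Finset.Ioc D (2 * n), ⋃ P ∈ Ird F d, {f ∈ Fam F n | P ∣ f.1 ∧ P ∣ f.2.1}) ∪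
        ⋃ d ∈ Finset.Ioc D (6 * n), ⋃ P ∈ Ird F d,
          {f ∈ Fam F n | ¬ P ∣ f.1 ∧ P ^ 2 ∣ disc f.1 f.2.1 f.2.2})) := by
  rintro f ⟨hf, P, hPm, hPi, hD, hdvd⟩
  by_cases h1 : f.1 = 0
  · left
    exact ⟨hf, h1⟩
  right
  by_cases h2 : disc f.1 f.2.1 f.2.2 = 0
  · left
    exact ⟨hf, h1, h2⟩
  right
  by_cases h4 : P ∣ f.1
  · left
    simp only [Set.mem_iUnion]
    refine ⟨P.natDegree, ?_, P, ?_, hf, h4, ?_⟩
    · rw [Finset.mem_Ioc]
      exact ⟨hD, (natDegree_le_of_dvd h4 h1).trans hf.1⟩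
    · rw [mem_Ird]
      exact ⟨hPm, hPi, rfl⟩
    · rw [disc3 h3] at hdvd
      have h5 : P ∣ f.2.1 ^ 3 := by
        have h6 : P ∣ f.1 ^ 2 * f.2.1 ^ 2 - f.2.1 ^ 3 - f.1 ^ 3 * f.2.2 :=
          (dvd_pow_self P two_ne_zero).trans hdvd
        have h7 : P ∣ f.1 ^ 2 * f.2.1 ^ 2 - f.1 ^ 3 * f.2.2 :=
          dvd_sub ((h4.trans (dvd_pow_self _ two_ne_zero)).mul_right _)
            ((h4.trans (dvd_pow_self _ three_ne_zero)).mul_right _)
        have h8 := dvd_sub h7 h6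
        have h9 : f.1 ^ 2 * f.2.1 ^ 2 - f.1 ^ 3 * f.2.2 -
          (f.1 ^ 2 * f.2.1 ^ 2 - f.2.1 ^ 3 - f.1 ^ 3 * f.2.2) = f.2.1 ^ 3 := by ring
        rwa [h9] at h8
      exact hPi.prime.dvd_of_dvd_pow h5
  · right
    simp only [Set.mem_iUnion]
    refine ⟨P.natDegree, ?_, P, ?_, hf, h4, hdvd⟩
    · rw [Finset.mem_Ioc]
      refine ⟨hD, ?_⟩
      have h5 := natDegree_le_of_dvd hdvd h2
      rw [natDegree_pow] at h5
      have h6 := natDegree_disc h3 n f hf
      omega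
    · rw [mem_Ird]
      exact ⟨hPm, hPi, rfl⟩

theorem geom_small (x : ℝ) (hx0 : 0 ≤ x) (hx : x ≤ 1 / 2) (D M : ℕ) :
    ∑ d ∈ Finset.Ioc D M, x ^ d ≤ x ^ D := by
  by_cases h : D ≤ M
  · have key : ∀ M, D ≤ M → ∑ d ∈ Finset.Ioc D M, x ^ d ≤ x ^ D - x ^ M := by
      intro M hM
      induction M, hM using Nat.le_induction with
      | base => simp
      | succ M hM ih =>
        rw [← Finset.insert_Ioc_right_eq_Ioc_add_one hM, Finset.sum_insert (by simp)]
        have h1 : x ^ (M + 1) ≤ x ^ M * (1 / 2) := by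
          rw [pow_succ]
          exact mul_le_mul_of_nonneg_left hx (pow_nonneg hx0 _)
        linarith
    have := key M h
    have h2 : 0 ≤ x ^ M := pow_nonneg hx0 _
    linarith
  · rw [Finset.Ioc_eq_empty (by omega), Finset.sum_empty]
    exact pow_nonneg hx0 _

theorem geom_big (q : ℝ) (hq : 2 ≤ q) (D M : ℕ) :
    ∑ d ∈ Finset.Ioc D M, q ^ d ≤ q ^ (M + 1) := by
  by_cases h : D ≤ M
  · induction M, h using Nat.le_induction with
    | base =>
      simp only [Finset.Ioc_self, Finset.sum_empty]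
      positivity
    | succ M hM ih =>
      rw [← Finset.insert_Ioc_right_eq_Ioc_add_one hM, Finset.sum_insert (by simp)]
      have h1 : q ^ (M + 1 + 1) = q * q ^ (M + 1) := by ring
      have h2 : 0 ≤ q ^ (M + 1) := by positivity
      nlinarith
  · rw [Finset.Ioc_eq_empty (by omega), Finset.sum_empty]
    positivity

end H86

open H86 in
theorem tai_thm : TAIStmt := by
  intro F _ _ h3 ε hε
  have hq2 : 2 ≤ Nat.card F := Finite.one_lt_card
  obtain ⟨D, hD⟩ := exists_pow_lt_of_lt_one (show (0 : ℝ) < ε / 6 by positivity)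
    (show (1 / 2 : ℝ) < 1 by norm_num)
  obtain ⟨N, hN⟩ := exists_nat_gt (3 / ε)
  refine ⟨D, N + D, ?_⟩
  intro n hn
  set q := Nat.card F with hq
  have hqR : (2 : ℝ) ≤ (q : ℝ) := by exact_mod_cast hq2
  have hq0 : (0 : ℝ) < (q : ℝ) := by linarith
  -- the count in ℕ
  have hcount : ({f ∈ Fam F n | ∃ P : F[X], P.Monic ∧ Irreducible P ∧ D < P.natDegree ∧
      P ^ 2 ∣ disc f.1 f.2.1 f.2.2} : Set (F[X] × F[X] × F[X])).ncard ≤
      q ^ (10 * n + 2) + (q ^ (6 * n + 2) +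
        ((∑ d ∈ Finset.Ioc D (2 * n), (Ird F d).card *
          (q ^ (2 * n + 1 - d) * (q ^ (4 * n + 1 - d) * q ^ (6 * n + 1)))) +
        ∑ d ∈ Finset.Ioc D (6 * n), (Ird F d).card *
          (q ^ (6 * n + 2) * q ^ (6 * n + 1 - 2 * d)))) := by
    refine (Set.ncard_le_ncard (cover h3 n D) ?_).trans ?_
    · refine (Fam_finite n).subset ?_
      intro f hf
      simp only [Set.mem_union, Set.mem_iUnion] at hf
      rcases hf with hf | hf | ⟨_, _, _, _, hf⟩ | ⟨_, _, _, _, hf⟩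
      · exact hf.1
      · exact hf.1
      · exact hf.1
      · exact hf.1
    refine (Set.ncard_union_le _ _).trans (add_le_add (part_a n) ?_)
    refine (Set.ncard_union_le _ _).trans (add_le_add (part_b h3 n) ?_)
    refine (Set.ncard_union_le _ _).trans (add_le_add ?_ ?_)
    · refine (Finset.set_ncard_biUnion_le _ _).trans (Finset.sum_le_sum ?_)
      intro d _
      refine (Finset.set_ncard_biUnion_le _ _).trans ?_
      rw [← smul_eq_mul]
      refine Finset.sum_le_card_nsmul _ _ _ ?_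
      intro P hP
      rw [mem_Ird] at hP
      have := part_c n P hP.2.1.ne_zero
      rw [hP.2.2] at this
      exact this
    · refine (Finset.set_ncard_biUnion_le _ _).trans (Finset.sum_le_sum ?_)
      intro d _
      refine (Finset.set_ncard_biUnion_le _ _).trans ?_
      rw [← smul_eq_mul]
      refine Finset.sum_le_card_nsmul _ _ _ ?_
      intro P hP
      rw [mem_Ird] at hP
      have := part_d h3 n P hP.2.1
      rw [hP.2.2] at this
      exact this
  have hI : ∀ d : ℕ, (d : ℝ) * ((Ird F d).card : ℝ) ≤ (q : ℝ) ^ d := by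
    intro d
    have := irr_count d (Ird F d) (fun P hP => (mem_Ird d P).mp hP)
    exact_mod_cast this
  have hI1 : ∀ d : ℕ, 1 ≤ d → ((Ird F d).card : ℝ) ≤ (q : ℝ) ^ d := by
    intro d hd
    have h1 := hI d
    have h2 : (1 : ℝ) ≤ (d : ℝ) := by exact_mod_cast hd
    have h4 : (0 : ℝ) ≤ ((Ird F d).card : ℝ) := Nat.cast_nonneg _
    nlinarith
  set T : ℝ := (q : ℝ) ^ (12 * n + 3) with hT
  have hT0 : 0 < T := by positivity
  have hC : ∑ d ∈ Finset.Ioc D (2 * n), ((Ird F d).card : ℝ) *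
      ((q : ℝ) ^ (2 * n + 1 - d) * ((q : ℝ) ^ (4 * n + 1 - d) * (q : ℝ) ^ (6 * n + 1))) ≤
      T * (1 / 2) ^ D := by
    calc _ ≤ ∑ d ∈ Finset.Ioc D (2 * n), T * (1 / (q : ℝ)) ^ d := by
          refine Finset.sum_le_sum ?_
          intro d hd
          rw [Finset.mem_Ioc] at hd
          calc _ ≤ (q : ℝ) ^ d * ((q : ℝ) ^ (2 * n + 1 - d) *
                ((q : ℝ) ^ (4 * n + 1 - d) * (q : ℝ) ^ (6 * n + 1))) :=
                mul_le_mul_of_nonneg_right (hI1 d (by omega)) (by positivity)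
            _ = T * (1 / (q : ℝ)) ^ d := by
                rw [hT, one_div, inv_pow, eq_mul_inv_iff_mul_eq₀ (by positivity), ← pow_add,
                  ← pow_add, ← pow_add, ← pow_add]
                congr 1
                omega
      _ = T * ∑ d ∈ Finset.Ioc D (2 * n), (1 / (q : ℝ)) ^ d := by rw [Finset.mul_sum]
      _ ≤ T * (1 / (q : ℝ)) ^ D := by
          refine mul_le_mul_of_nonneg_left ?_ hT0.le
          refine geom_small _ (by positivity) ?_ _ _
          exact one_div_le_one_div_of_le (by norm_num) hqR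
      _ ≤ T * (1 / 2) ^ D := by
          refine mul_le_mul_of_nonneg_left ?_ hT0.le
          refine pow_le_pow_left₀ (by positivity) ?_ _
          exact one_div_le_one_div_of_le (by norm_num) hqR
  have hn1 : 1 ≤ 3 * n + 1 := by omega
  have hDd : ∑ d ∈ Finset.Ioc D (6 * n), ((Ird F d).card : ℝ) *
      ((q : ℝ) ^ (6 * n + 2) * (q : ℝ) ^ (6 * n + 1 - 2 * d)) ≤
      T * (1 / 2) ^ D + T / (3 * n + 1) := by
    calc _ ≤ ∑ d ∈ Finset.Ioc D (6 * n), (T * (1 / (q : ℝ)) ^ d +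
          (q : ℝ) ^ (6 * n + 2) / (3 * n + 1) * (q : ℝ) ^ d) := by
          refine Finset.sum_le_sum ?_
          intro d hd
          rw [Finset.mem_Ioc] at hd
          by_cases h6 : 2 * d ≤ 6 * n + 1
          · calc _ ≤ (q : ℝ) ^ d * ((q : ℝ) ^ (6 * n + 2) * (q : ℝ) ^ (6 * n + 1 - 2 * d)) :=
                mul_le_mul_of_nonneg_right (hI1 d (by omega)) (by positivity)
              _ = T * (1 / (q : ℝ)) ^ d := by
                rw [hT, one_div, inv_pow, eq_mul_inv_iff_mul_eq₀ (by positivity), ← pow_add,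
                  ← pow_add, ← pow_add]
                congr 1
                omega
              _ ≤ _ := by
                have : 0 ≤ (q : ℝ) ^ (6 * n + 2) / (3 * n + 1) * (q : ℝ) ^ d := by positivity
                linarith
          · have h7 : 6 * n + 1 - 2 * d = 0 := by omega
            rw [h7, pow_zero, mul_one]
            have h8 : (3 * (n : ℝ) + 1) ≤ (d : ℝ) := by
              have : 3 * n + 1 ≤ d := by omega
              exact_mod_cast this
            have h9 : ((Ird F d).card : ℝ) ≤ (q : ℝ) ^ d / (3 * n + 1) := by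
              rw [le_div_iff₀ (by positivity)]
              have := hI d
              have h10 : (0 : ℝ) ≤ ((Ird F d).card : ℝ) := Nat.cast_nonneg _
              nlinarith
            calc _ ≤ (q : ℝ) ^ d / (3 * n + 1) * (q : ℝ) ^ (6 * n + 2) :=
                  mul_le_mul_of_nonneg_right h9 (by positivity)
              _ = (q : ℝ) ^ (6 * n + 2) / (3 * n + 1) * (q : ℝ) ^ d := by ring
              _ ≤ _ := by
                have : 0 ≤ T * (1 / (q : ℝ)) ^ d := by positivity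
                linarith
      _ = T * ∑ d ∈ Finset.Ioc D (6 * n), (1 / (q : ℝ)) ^ d +
          (q : ℝ) ^ (6 * n + 2) / (3 * n + 1) * ∑ d ∈ Finset.Ioc D (6 * n), (q : ℝ) ^ d := by
          rw [Finset.sum_add_distrib, Finset.mul_sum, Finset.mul_sum]
      _ ≤ T * (1 / (q : ℝ)) ^ D +
          (q : ℝ) ^ (6 * n + 2) / (3 * n + 1) * (q : ℝ) ^ (6 * n + 1) := by
          refine add_le_add (mul_le_mul_of_nonneg_left ?_ hT0.le)
            (mul_le_mul_of_nonneg_left (geom_big _ hqR _ _) (by positivity))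
          refine geom_small _ (by positivity) ?_ _ _
          exact one_div_le_one_div_of_le (by norm_num) hqR
      _ ≤ T * (1 / 2) ^ D + T / (3 * n + 1) := by
          refine add_le_add (mul_le_mul_of_nonneg_left ?_ hT0.le) ?_
          · refine pow_le_pow_left₀ (by positivity) ?_ _
            exact one_div_le_one_div_of_le (by norm_num) hqR
          · rw [div_mul_eq_mul_div, ← pow_add, hT]
            have : 6 * n + 2 + (6 * n + 1) = 12 * n + 3 := by omega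
            rw [this]
  have hA : (q : ℝ) ^ (10 * n + 2) ≤ T * (1 / 2) ^ D := by
    have h1 : T = (q : ℝ) ^ (10 * n + 2) * (q : ℝ) ^ (2 * n + 1) := by
      rw [hT, ← pow_add]
      congr 1
      omega
    have h2 : (2 : ℝ) ^ D ≤ (q : ℝ) ^ (2 * n + 1) := by
      calc (2 : ℝ) ^ D ≤ (q : ℝ) ^ D := pow_le_pow_left₀ (by norm_num) hqR _
        _ ≤ _ := pow_le_pow_right₀ (by linarith) (by omega)
    rw [h1, one_div, inv_pow, ← div_eq_mul_inv, le_div_iff₀ (by positivity)]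
    exact mul_le_mul_of_nonneg_left h2 (by positivity)
  have hB : (q : ℝ) ^ (6 * n + 2) ≤ T * (1 / 2) ^ D := by
    refine le_trans ?_ hA
    exact pow_le_pow_right₀ (by linarith) (by omega)
  have hfin : T / (3 * n + 1) ≤ T * (ε / 3) := by
    rw [div_eq_mul_inv]
    refine mul_le_mul_of_nonneg_left ?_ hT0.le
    rw [inv_le_comm₀ (by positivity) (by positivity)]
    have h1 : (N : ℝ) ≤ (n : ℝ) := by
      have : N ≤ n := by omega
      exact_mod_cast this
    have h2 : (ε / 3)⁻¹ = 3 / ε := by rw [inv_div]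
    rw [h2]
    have h4 : (0 : ℝ) ≤ (n : ℝ) := Nat.cast_nonneg _
    linarith
  have hcR : (({f ∈ Fam F n | ∃ P : F[X], P.Monic ∧ Irreducible P ∧ D < P.natDegree ∧
      P ^ 2 ∣ disc f.1 f.2.1 f.2.2} : Set (F[X] × F[X] × F[X])).ncard : ℝ) ≤
      (q : ℝ) ^ (10 * n + 2) + ((q : ℝ) ^ (6 * n + 2) +
        ((∑ d ∈ Finset.Ioc D (2 * n), ((Ird F d).card : ℝ) *
          ((q : ℝ) ^ (2 * n + 1 - d) * ((q : ℝ) ^ (4 * n + 1 - d) * (q : ℝ) ^ (6 * n + 1)))) +
        ∑ d ∈ Finset.Ioc D (6 * n), ((Ird F d).card : ℝ) *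
          ((q : ℝ) ^ (6 * n + 2) * (q : ℝ) ^ (6 * n + 1 - 2 * d)))) := by
    exact_mod_cast hcount
  have hε6 : T * (1 / 2) ^ D ≤ T * (ε / 6) := mul_le_mul_of_nonneg_left hD.le hT0.le
  calc _ ≤ _ := hcR
    _ ≤ T * (ε / 6) + (T * (ε / 6) + (T * (ε / 6) + (T * (ε / 6) + T * (ε / 3)))) := by
      linarith
    _ = ε * T := by ring

end Pool.AVR
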